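import Mathlib

/-! Multiplicative bases: a quadrilateral-free bipartite graph gives a set of integers with a small
basis of positive rationals and only large bases of positive integers. -/

namespace Pool.Agent.P.MP_e3bb54_nt

open Finset

section Abstract

variable {L P : Type} [DecidableEq L] [DecidableEq P]

/-- Set of prime indices of the integer attached to an edge. -/
def supp (E : Finset (L × P)) (e : L × P) : Finset (L ⊕ P ⊕ L) :=
  insert (Sum.inl e.1) (insert (Sum.inr (Sum.inl e.2))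
    ((((E.filter fun f => f.2 = e.2).image Prod.fst).erase e.1).image fun i => Sum.inr (Sum.inr i)))

theorem dvd_iff {T : Type} (π : T → ℕ) (hπ : ∀ t, (π t).Prime) (hinj : Function.Injective π)
    (S : Finset T) (t : T) : π t ∣ ∏ s ∈ S, π s ↔ t ∈ S := by
  rw [(Nat.prime_iff.mp (hπ t)).dvd_finsetProd_iff]
  constructor
  · rintro ⟨s, hs, hd⟩
    exact hinj ((Nat.prime_dvd_prime_iff_eq (hπ t) (hπ s)).mp hd) ▸ hs
  · exact fun h => ⟨t, h, dvd_rfl⟩

theorem card_le (E : Finset (L × P))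
    (hE : ∀ i i' j j', (i, j) ∈ E → (i, j') ∈ E → (i', j) ∈ E → (i', j') ∈ E → i = i' ∨ j = j')
    (π : L ⊕ P ⊕ L → ℕ) (hπ : ∀ t, (π t).Prime) (hinj : Function.Injective π)
    (C : Finset ℕ) (hC : ∀ e ∈ E, ∃ c ∈ C, ∃ d ∈ C, ∏ s ∈ supp E e, π s = c * d) :
    E.card ≤ C.card := by
  set a : L × P → ℕ := fun e => ∏ s ∈ supp E e, π s with ha
  have h1 : ∀ i e, π (Sum.inl i) ∣ a e ↔ i = e.1 := by
    intro i e
    simp only [ha, dvd_iff π hπ hinj]
    simp [supp]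
  have h2 : ∀ j e, π (Sum.inr (Sum.inl j)) ∣ a e ↔ j = e.2 := by
    intro j e
    simp only [ha, dvd_iff π hπ hinj]
    simp [supp]
  have h3 : ∀ i e, π (Sum.inr (Sum.inr i)) ∣ a e ↔ i ≠ e.1 ∧ (i, e.2) ∈ E := by
    intro i e
    simp only [ha, dvd_iff π hπ hinj]
    simp [supp]
  have aux : ∀ e ∈ E, ∀ c d : ℕ, a e = c * d → π (Sum.inl e.1) ∣ c →
      ∀ e' ∈ E, e' ≠ e → c ∣ a e' → ∀ e'' ∈ E, e'' ≠ e → d ∣ a e'' → False := by
    rintro ⟨i, j⟩ he c d hcd hp ⟨i', j'⟩ he' hne' hc ⟨i'', j''⟩ he'' hne'' hd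
    have e1 : i = i' := (h1 i (i', j')).mp (hp.trans hc)
    subst e1
    have hj : j ≠ j' := fun h => hne' (by rw [h])
    have hq : π (Sum.inr (Sum.inl j)) ∣ c * d := hcd ▸ (h2 j (i, j)).mpr rfl
    rcases (Nat.Prime.dvd_mul (hπ _)).mp hq with hq | hq
    · exact hj ((h2 j (i, j')).mp (hq.trans hc))
    have e2 : j = j'' := (h2 j (i'', j'')).mp (hq.trans hd)
    subst e2
    have hi : i'' ≠ i := fun h => hne'' (by rw [h])
    have hr : π (Sum.inr (Sum.inr i'')) ∣ c * d := hcd ▸ (h3 i'' (i, j)).mpr ⟨hi, he''⟩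
    rcases (Nat.Prime.dvd_mul (hπ _)).mp hr with hr | hr
    · have := ((h3 i'' (i, j')).mp (hr.trans hc)).2
      rcases hE i i'' j j' he he' he'' this with h | h
      · exact hi h.symm
      · exact hj h
    · exact ((h3 i'' (i'', j)).mp (hr.trans hd)).1 rfl
  have priv : ∀ e ∈ E, ∃ u ∈ C, u ∣ a e ∧ ∀ e' ∈ E, u ∣ a e' → e' = e := by
    intro e he
    obtain ⟨c, hc, d, hd, hcd⟩ := hC e he
    have hcd : a e = c * d := hcd
    by_contra hcon
    push Not at hcon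
    obtain ⟨e', he', hce', hne'⟩ := hcon c hc (hcd ▸ dvd_mul_right c d)
    obtain ⟨e'', he'', hde'', hne''⟩ := hcon d hd (hcd ▸ dvd_mul_left d c)
    have hp : π (Sum.inl e.1) ∣ c * d := hcd ▸ (h1 e.1 e).mpr rfl
    rcases (Nat.Prime.dvd_mul (hπ _)).mp hp with hp | hp
    · exact aux e he c d hcd hp e' he' hne' hce' e'' he'' hne'' hde''
    · exact aux e he d c (hcd.trans (mul_comm c d)) hp e'' he'' hne'' hde'' e' he' hne' hce'
  choose! f hf using priv
  refine Finset.card_le_card_of_injOn f (fun e he => (hf e he).1) ?_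
  intro e he e' he' h
  exact ((hf e he).2.2 e' he' (h ▸ (hf e' he').2.1)).symm

theorem prod_supp (E : Finset (L × P)) (π : L ⊕ P ⊕ L → ℕ) (hπ : ∀ t, (π t).Prime)
    (e : L × P) (he : e ∈ E) :
    ((∏ s ∈ supp E e, π s : ℕ) : ℝ) =
      ((π (Sum.inl e.1) : ℝ) / (π (Sum.inr (Sum.inr e.1)) : ℝ)) *
        ((π (Sum.inr (Sum.inl e.2)) : ℝ) *
          ∏ i ∈ (E.filter fun f => f.2 = e.2).image Prod.fst, (π (Sum.inr (Sum.inr i)) : ℝ)) := by
  have hm : e.1 ∈ (E.filter fun f => f.2 = e.2).image Prod.fst :=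
    mem_image.mpr ⟨e, mem_filter.mpr ⟨he, rfl⟩, rfl⟩
  have h0 : (π (Sum.inr (Sum.inr e.1)) : ℝ) ≠ 0 := Nat.cast_ne_zero.mpr (hπ _).ne_zero
  unfold supp
  rw [prod_insert (by simp), prod_insert (by simp), prod_image (by intro a _ b _ h; simpa using h),
    ← mul_prod_erase _ _ hm]
  push_cast
  field_simp

theorem exists_sets [Countable L] [Countable P] (E : Finset (L × P))
    (hE : ∀ i i' j j', (i, j) ∈ E → (i, j') ∈ E → (i', j) ∈ E → (i', j') ∈ E → i = i' ∨ j = j')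
    (n : ℕ) (hn : (E.image Prod.fst).card + (E.image Prod.snd).card ≤ n) :
    ∃ B : Finset ℝ, (∀ b ∈ B, 0 < b) ∧ B.card = n ∧
      ∃ A : Finset ℕ, (∀ a ∈ A, 0 < a ∧ ∃ x ∈ B, ∃ y ∈ B, (a : ℝ) = x * y) ∧
        ∀ C : Finset ℕ, (∀ a ∈ A, ∃ c ∈ C, ∃ d ∈ C, a = c * d) → E.card ≤ C.card := by
  obtain ⟨enc, henc⟩ := exists_injective_nat (L ⊕ P ⊕ L)
  set π : L ⊕ P ⊕ L → ℕ := fun t => Nat.nth Nat.Prime (enc t) with hπdef
  have hπ : ∀ t, (π t).Prime := fun t => Nat.prime_nth_prime _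
  have hinj : Function.Injective π := (Nat.nth_injective Nat.infinite_setOfPred_prime).comp henc
  have hpos : ∀ t, (0 : ℝ) < π t := fun t => Nat.cast_pos.mpr (hπ t).pos
  set x : L → ℝ := fun i => (π (Sum.inl i) : ℝ) / (π (Sum.inr (Sum.inr i)) : ℝ) with hx
  set y : P → ℝ := fun j => (π (Sum.inr (Sum.inl j)) : ℝ) *
    ∏ i ∈ (E.filter fun f => f.2 = j).image Prod.fst, (π (Sum.inr (Sum.inr i)) : ℝ) with hy
  set B0 : Finset ℝ := (E.image Prod.fst).image x ∪ (E.image Prod.snd).image y with hB0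
  have hB0c : B0.card ≤ n :=
    (card_union_le _ _).trans ((add_le_add card_image_le card_image_le).trans hn)
  have hB0p : ∀ b ∈ B0, 0 < b := by
    intro b hb
    rcases mem_union.mp hb with hb | hb
    · obtain ⟨i, -, rfl⟩ := mem_image.mp hb
      exact div_pos (hpos _) (hpos _)
    · obtain ⟨j, -, rfl⟩ := mem_image.mp hb
      exact mul_pos (hpos _) (prod_pos fun i _ => hpos _)
  obtain ⟨B1, hB1, hB1c⟩ :=
    ((Set.Ioi_infinite (0 : ℝ)).sdiff B0.finite_toSet).exists_subset_card_eq (n - B0.card)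
  have hdisj : Disjoint B0 B1 := by
    rw [Finset.disjoint_right]
    intro b hb
    exact (hB1 hb).2
  refine ⟨B0 ∪ B1, fun b hb => ?_, ?_, E.image fun e => ∏ s ∈ supp E e, π s, fun a ha => ?_,
    fun C hC => ?_⟩
  · rcases mem_union.mp hb with hb | hb
    · exact hB0p b hb
    · exact (hB1 hb).1
  · rw [card_union_of_disjoint hdisj, hB1c]
    omega
  · obtain ⟨e, he, rfl⟩ := mem_image.mp ha
    refine ⟨prod_pos fun s _ => (hπ s).pos, x e.1, ?_, y e.2, ?_, prod_supp E π hπ e he⟩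
    · exact mem_union_left _ (mem_union_left _ (mem_image_of_mem _ (mem_image_of_mem _ he)))
    · exact mem_union_left _ (mem_union_right _ (mem_image_of_mem _ (mem_image_of_mem _ he)))
  · exact card_le E hE π hπ hinj C fun e he => hC _ (mem_image_of_mem _ he)

end Abstract

/-- Incidences between the lines `y = m x + c` and the points of a grid. -/
def grid (k : ℕ) : Finset ((ℕ × ℕ) × (ℕ × ℕ)) :=
  (range k ×ˢ range k ×ˢ range (k ^ 2)).image fun t => ((t.2.1, t.2.2), (t.1, t.2.1 * t.1 + t.2.2))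

theorem mem_grid {k : ℕ} {e : (ℕ × ℕ) × (ℕ × ℕ)} (h : e ∈ grid k) :
    e.1.1 < k ∧ e.1.2 < k ^ 2 ∧ e.2.1 < k ∧ e.2.2 = e.1.1 * e.2.1 + e.1.2 := by
  obtain ⟨⟨a, m, c⟩, ht, rfl⟩ := mem_image.mp h
  simp only [mem_product, mem_range] at ht
  exact ⟨ht.2.1, ht.2.2, ht.1, rfl⟩

theorem card_grid (k : ℕ) : (grid k).card = k ^ 4 := by
  unfold grid
  rw [card_image_of_injective]
  · simp only [card_product, card_range]
    ring
  · rintro ⟨a, m, c⟩ ⟨a', m', c'⟩ h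
    simp only [Prod.mk.injEq] at h
    obtain ⟨⟨rfl, rfl⟩, rfl, -⟩ := h
    rfl

theorem grid_free (k : ℕ) (i i' j j' : ℕ × ℕ) (h1 : (i, j) ∈ grid k) (h2 : (i, j') ∈ grid k)
    (h3 : (i', j) ∈ grid k) (h4 : (i', j') ∈ grid k) : i = i' ∨ j = j' := by
  obtain ⟨m, c⟩ := i
  obtain ⟨m', c'⟩ := i'
  obtain ⟨a, b⟩ := j
  obtain ⟨a', b'⟩ := j'
  have e1 := (mem_grid h1).2.2.2
  have e2 := (mem_grid h2).2.2.2
  have e3 := (mem_grid h3).2.2.2
  have e4 := (mem_grid h4).2.2.2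
  simp only at e1 e2 e3 e4
  have key : ((m : ℤ) - m') * ((a : ℤ) - a') = 0 := by
    zify at e1 e2 e3 e4
    linear_combination e3 - e1 + e2 - e4
  rcases mul_eq_zero.mp key with h | h
  · left
    have hm : m = m' := by omega
    subst hm
    have : c = c' := by omega
    rw [this]
  · right
    have ha : a = a' := by omega
    subst ha
    rw [e1, e2]

theorem grid_vertices (k : ℕ) :
    ((grid k).image Prod.fst).card + ((grid k).image Prod.snd).card ≤ 3 * k ^ 3 := by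
  have h1 : (grid k).image Prod.fst ⊆ range k ×ˢ range (k ^ 2) := by
    intro i hi
    obtain ⟨e, he, rfl⟩ := mem_image.mp hi
    have := mem_grid he
    simp only [mem_product, mem_range]
    exact ⟨this.1, this.2.1⟩
  have h2 : (grid k).image Prod.snd ⊆ range k ×ˢ range (2 * k ^ 2) := by
    intro i hi
    obtain ⟨e, he, rfl⟩ := mem_image.mp hi
    obtain ⟨a, b, c, d⟩ := mem_grid he
    simp only [mem_product, mem_range]
    refine ⟨c, ?_⟩
    have : e.1.1 * e.2.1 ≤ k * k := Nat.mul_le_mul a.le c.le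
    nlinarith
  have c1 := card_le_card h1
  have c2 := card_le_card h2
  simp only [card_product, card_range] at c1 c2
  nlinarith

theorem exists_k (n : ℕ) (hn : 3 * (24 ^ 5) ^ 3 < n) :
    ∃ k : ℕ, 3 * k ^ 3 ≤ n ∧ (n : ℝ) ^ (1 + 1 / 4 : ℝ) ≤ ((k ^ 4 : ℕ) : ℝ) := by
  classical
  have hex : ∃ k : ℕ, n < 3 * (k + 1) ^ 3 := ⟨n, by nlinarith [Nat.zero_le (n ^ 3), Nat.zero_le (n ^ 2)]⟩
  obtain ⟨k, hk, hmin⟩ : ∃ k : ℕ, n < 3 * (k + 1) ^ 3 ∧ ∀ j < k, ¬ n < 3 * (j + 1) ^ 3 :=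
    ⟨Nat.find hex, Nat.find_spec hex, fun j hj => Nat.find_min hex hj⟩
  have hk0 : 24 ^ 5 ≤ k := by
    by_contra h
    have : (k + 1) ^ 3 ≤ (24 ^ 5) ^ 3 := Nat.pow_le_pow_left (by omega) 3
    omega
  have hle : 3 * k ^ 3 ≤ n := by
    have := hmin (k - 1) (by omega)
    rw [show k - 1 + 1 = k by omega] at this
    omega
  refine ⟨k, hle, ?_⟩
  have h1 : n ≤ 24 * k ^ 3 := by
    have : (k + 1) ^ 3 ≤ (2 * k) ^ 3 := Nat.pow_le_pow_left (by omega) 3
    nlinarith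
  have h2 : n ^ 5 ≤ (k ^ 4) ^ 4 := by
    calc n ^ 5 ≤ (24 * k ^ 3) ^ 5 := Nat.pow_le_pow_left h1 5
      _ = 24 ^ 5 * k ^ 15 := by ring
      _ ≤ k * k ^ 15 := Nat.mul_le_mul_right _ hk0
      _ = (k ^ 4) ^ 4 := by ring
  have h3 : ((n : ℝ) ^ (1 + 1 / 4 : ℝ)) ^ 4 = (n : ℝ) ^ 5 := by
    rw [← Real.rpow_natCast, ← Real.rpow_mul (Nat.cast_nonneg n), ← Real.rpow_natCast]
    norm_num
  refine le_of_pow_le_pow_left₀ (n := 4) (by norm_num) (Nat.cast_nonneg _) ?_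
  rw [h3]
  exact_mod_cast h2

end Pool.Agent.P.MP_e3bb54_nt
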